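import Pool.Agent.H78.S.Targets

/-!
# Torsion in the torus of a line (row TQB of board sgt_modules)
-/

set_option autoImplicit false

open Set Pool.Agent.H77.BC Pool.Agent.H78.S
open scoped Pointwise

namespace Pool.Agent.H94.S

theorem pf_TQB (hCTI : T_CTI) (hREG : T_REG) (hRGV : T_RGV) (hIDE : T_IDE) (hMXL : T_MXL)
    (hTRJ : T_TRJ) (hCTB : T_CTB) : T_TQB := by
  classical
  intro M U G S _ _ _ _ _ _ hD H X T o e hc hCom hfa s hfin hs
  obtain ⟨ho, -, -, -, -, -, hTH, -, hHX, -⟩ := hCTB U hD H X T o e hc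
  obtain ⟨V, hVH, hVD, hVC, hVN, hVcm⟩ := hCTI U hD H X T o e hc hCom
  obtain ⟨tr, reg, cn, hT, hHV⟩ := hREG U hD H X T o e hc hCom hfa V hVH hVD hVC hVN hVcm
  obtain ⟨R, _, j, hR⟩ := hRGV U hD H X T o e hc hCom hfa V hVH hVD hVC hVN tr reg cn hT hHV
  set Φ : Ideal R → Set (S × S) := fun I => {p | p.1 ∈ X ∧ p.2 ∈ X ∧ j p.1 - j p.2 ∈ I} with hΦ
  have hsub : ∀ I J : Ideal R, Φ I = Φ J → I ≤ J := by
    intro I J h r hr
    obtain ⟨y, hy, rfl⟩ := hR.onto r
    have h1 : (y, o) ∈ Φ I := ⟨hy, ho, by rw [hR.j0, sub_zero]; exact hr⟩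
    rw [h] at h1
    have h2 := h1.2.2
    simp only [hR.j0, sub_zero] at h2
    exact h2
  have hinj : Function.Injective Φ := fun I J h => le_antisymm (hsub I J h) (hsub J I h.symm)
  set MM : Set (Ideal R) := {I | I.IsMaximal} with hMM
  have hmaps : Φ '' MM ⊆ Lines U H X o e := by
    rintro _ ⟨I, hI, rfl⟩
    exact hMXL U hD H X T o e hc R j hR I hI
  have hMfin : MM.Finite := Set.Finite.of_finite_image (hfin.subset hmaps) hinj.injOn
  have hMcard : MM.ncard ≤ s := by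
    rw [← hs, ← Set.ncard_image_of_injective MM hinj]
    exact Set.ncard_le_ncard hmaps hfin
  -- the maximal ideals
  obtain ⟨m, hm1, hm2⟩ : ∃ m : Fin s → Ideal R, (∀ i, (m i).IsMaximal) ∧
      ∀ I : Ideal R, I.IsMaximal → ∃ i, I = m i := by
    rcases Nat.eq_zero_or_pos s with h0 | hpos
    · have hemp : Lines U H X o e = ∅ := by
        rw [h0] at hs
        exact (Set.ncard_eq_zero hfin).1 hs
      refine ⟨fun i => ⊤, ?_, ?_⟩
      · intro i
        exact absurd i.2 (by omega)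
      · intro I hI
        have := hmaps ⟨I, hI, rfl⟩
        rw [hemp] at this
        exact absurd this (Set.notMem_empty _)
    · have hne : (Lines U H X o e).Nonempty := by
        rw [← Set.ncard_pos hfin, hs]
        exact hpos
      obtain ⟨E, ⟨L⟩⟩ := hne
      have hnt : Nontrivial R := by
        obtain ⟨y0, hy0, e0⟩ := L.line.onto 0
        obtain ⟨y1, hy1, e1⟩ := L.line.onto 1
        refine ⟨⟨j y0, j y1, fun h => ?_⟩⟩
        have := hR.inj hy0 hy1 h
        rw [this, e1] at e0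
        exact one_ne_zero e0
      obtain ⟨I0, hI0⟩ := Ideal.exists_maximal R
      have : Fintype MM := hMfin.fintype
      have hk : Fintype.card MM ≤ s := by
        rw [← Nat.card_eq_fintype_card, Nat.card_coe_set_eq]
        exact hMcard
      let ee := Fintype.equivFin MM
      refine ⟨fun i => if h : (i : ℕ) < Fintype.card MM then (ee.symm ⟨i, h⟩ : MM).1 else I0,
        ?_, ?_⟩
      · intro i
        dsimp only
        split_ifs with h
        · exact (ee.symm ⟨i, h⟩ : MM).2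
        · exact hI0
      · intro I hI
        refine ⟨⟨(ee ⟨I, hI⟩ : ℕ), lt_of_lt_of_le (ee ⟨I, hI⟩).2 hk⟩, ?_⟩
        have h1 : ((ee ⟨I, hI⟩ : Fin _) : ℕ) < Fintype.card MM := (ee ⟨I, hI⟩).2
        dsimp only
        rw [dif_pos h1]
        simp
  refine ⟨∑ i, ringChar (R ⧸ m i), ?_⟩
  intro q hq hq0
  have hunit : IsUnit (q : R) := by
    by_contra hn
    obtain ⟨I, hI, hqI⟩ := exists_max_ideal_of_mem_nonunits hn
    obtain ⟨i, rfl⟩ := hm2 I hI
    have h1 : ((q : ℕ) : R ⧸ m i) = 0 := by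
      have := (Ideal.Quotient.eq_zero_iff_mem (I := m i)).2 hqI
      rw [map_natCast] at this
      exact this
    have h2 : ringChar (R ⧸ m i) ∣ q := ringChar.dvd h1
    have h3 : Nontrivial (R ⧸ m i) := Ideal.Quotient.nontrivial_iff.2 hI.ne_top
    have h4 : ringChar (R ⧸ m i) ≠ 1 := CharP.ringChar_ne_one
    have h5 : ringChar (R ⧸ m i) = q := ((Nat.dvd_prime hq).1 h2).resolve_left h4
    have h6 : ringChar (R ⧸ m i) ≤ ∑ i, ringChar (R ⧸ m i) :=
      Finset.single_le_sum (f := fun i => ringChar (R ⧸ m i)) (fun i _ => Nat.zero_le _)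
        (Finset.mem_univ i)
    omega
  obtain ⟨F, hF⟩ := hTRJ R s m hm1 hm2 q hq hunit
  choose a ha using hR.tact
  have hpw : ∀ t (ht : t ∈ T) (n : ℕ), ∀ y ∈ X, j (t ^ n • y) = (a t ht : R) ^ n * j y := by
    intro t ht n
    induction n with
    | zero => intro y hy; simp
    | succ n ih =>
      intro y hy
      rw [pow_succ, mul_smul, ih _ (hHX t (hTH ht) y hy), ha t ht y hy, pow_succ]
      ring
  have hq1 : ∀ t (ht : t ∈ T), t ^ q = 1 → (a t ht) ^ q = 1 := by
    intro t ht h1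
    have h2 := hpw t ht q e hc.mem
    rw [h1, one_smul, hR.j1, mul_one] at h2
    ext
    push_cast
    exact h2.symm
  refine ⟨fun t => F ⟨a t.1 t.2.1, hq1 t.1 t.2.1 t.2.2⟩, ?_⟩
  intro t t' htt
  have h1 := hF htt
  have h2 : a t.1 t.2.1 = a t'.1 t'.2.1 := congrArg (fun z => z.1) h1
  have h3 : ∀ y ∈ X, t.1 • y = t'.1 • y := by
    intro y hy
    refine hR.inj (hHX _ (hTH t.2.1) y hy) (hHX _ (hTH t'.2.1) y hy) ?_
    rw [ha t.1 t.2.1 y hy, ha t'.1 t'.2.1 y hy, h2]
  have h4 : t'.1⁻¹ * t.1 = 1 := by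
    refine hfa _ (H.mul_mem (H.inv_mem (hTH t'.2.1)) (hTH t.2.1)) ?_
    intro y hy
    rw [mul_smul, h3 y hy, inv_smul_smul]
  apply Subtype.ext
  exact (inv_mul_eq_one.1 h4).symm

end Pool.Agent.H94.S
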