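import Pool.Agent.H78.S.T8

/-!
# Restriction of the situation of a line to the orbit (row SBX of board sgt_modules)
-/

set_option autoImplicit false

open Set Pool.Agent.H77.BC Pool.Agent.H78.S
open scoped Pointwise

namespace Pool.Agent.H94.S

section aux

variable {M : Type} {U : RU M} {G S : Type} [Group G] [MulAction G S] [Cod M G] [Cod M S]

private theorem D_map {Γ : Type} [Group Γ] [Cod M Γ] (H : Subgroup Γ) (L : Subgroup H) :
    U.D (L : Set H) ↔ U.D ((L.map H.subtype : Subgroup Γ) : Set Γ) := by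
  rw [Pool.Agent.H77.KG.D_sub]
  rfl

private theorem R_map {Γ : Type} [Group Γ] [Cod M Γ] (H : Subgroup Γ) (L : Subgroup H) :
    U.R (L : Set H) = U.R ((L.map H.subtype : Subgroup Γ) : Set Γ) := by
  rw [Pool.Agent.H77.KG.R_sub]
  rfl

private theorem map_of_le {Γ : Type} [Group Γ] (H L : Subgroup Γ) (h : L ≤ H) :
    (L.subgroupOf H).map H.subtype = L := by
  ext x
  constructor
  · rintro ⟨y, hy, rfl⟩
    exact hy
  · intro hx
    exact ⟨⟨x, h hx⟩, hx, rfl⟩

end aux

theorem pf_SBX (hCTB : T_CTB) (hCCA : T_CCA) (hCCB : T_CCB) : T_SBX := by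
  classical
  intro M U G S _ _ _ _ _ _ hD H X T o e hc
  obtain ⟨ho, hXD, -, hHD, -, -, hTH, -, hHX, hXH, -⟩ := hCTB U hD H X T o e hc
  have hXX : U.D {y : S | y ∈ X} := hXD
  have hFX : Ful U {y : S // y ∈ X} := Pool.Agent.H77.KG.ful_sub hXX
  have hDG : DG U H := Pool.Agent.H77.KG.dgSub H hHD
  let act : MulAction H {y : S // y ∈ X} :=
    { smul := fun h y => ⟨h.1 • y.1, hHX h.1 h.2 y.1 y.2⟩
      one_smul := fun y => Subtype.ext (one_smul G y.1)
      mul_smul := fun g h y => Subtype.ext (mul_smul g.1 h.1 y.1) }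
  have hsm : ∀ (h : H) (y : {y : S // y ∈ X}), (h • y : {y : S // y ∈ X}).1 = h.1 • y.1 :=
    fun h y => rfl
  have hvH : DFn U (fun h : H => h.1) := Pool.Agent.H77.KG.DFn_sval' (p := fun x => x ∈ H) hHD
  have hvX : DFn U (fun y : {y : S // y ∈ X} => y.1) :=
    Pool.Agent.H77.KG.DFn_sval' (p := fun x => x ∈ X) hXX
  have hact : DFn U (fun p : H × {y : S // y ∈ X} => p.1 • p.2) := by
    refine Pool.Agent.H77.KG.DFn_smk (p := fun x => x ∈ X) hXX ?_
    have h1 : DFn U (fun p : H × {y : S // y ∈ X} => p.1.1) :=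
      DFn_comp (g := fun h : H => h.1) hvH DFn_fst
    have h2 : DFn U (fun p : H × {y : S // y ∈ X} => p.2.1) :=
      DFn_comp (g := fun y : {y : S // y ∈ X} => y.1) hvX DFn_snd
    exact DFn_comp (g := fun q : G × S => q.1 • q.2) hD (DFn_pair h1 h2)
  refine ⟨H, {y : S // y ∈ X}, inferInstance, act, inferInstance, inferInstance,
    T.subgroupOf H, ⟨o, ho⟩, ⟨e, hc.mem⟩, hDG, hFX, hact, ?_, ?_, fun h => h⟩
  · -- the situation
    have hFxmap : ∀ L : Subgroup H, L ≤ Fx (⊤ : Subgroup H) (⟨o, ho⟩ : {y : S // y ∈ X}) ↔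
        L.map H.subtype ≤ Fx H o := by
      intro L
      constructor
      · rintro h _ ⟨x, hx, rfl⟩
        refine ⟨x.2, ?_⟩
        have h1 := (h hx).2
        have h2 : x • (⟨o, ho⟩ : {y : S // y ∈ X}) = ⟨o, ho⟩ := h1
        have h3 := congrArg Subtype.val h2
        exact h3
      · intro h x hx
        refine ⟨Subgroup.mem_top _, ?_⟩
        have h1 := (h ⟨x, hx, rfl⟩ : (H.subtype x) ∈ Fx H o).2
        have h2 : x.1 • o = o := h1
        exact Subtype.ext h2
    have hFxeq : (Fx (⊤ : Subgroup H) (⟨o, ho⟩ : {y : S // y ∈ X})).map H.subtype = Fx H o := by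
      apply le_antisymm
      · exact (hFxmap _).1 le_rfl
      · have h1 : Fx H o ≤ H := inf_le_left
        have h2 : (Fx H o).subgroupOf H ≤ Fx (⊤ : Subgroup H) (⟨o, ho⟩ : {y : S // y ∈ X}) := by
          rw [hFxmap, map_of_le _ _ h1]
        have h3 := Subgroup.map_mono (f := H.subtype) h2
        rw [map_of_le _ _ h1] at h3
        exact h3
    refine ⟨?_, ?_, ?_, mem_univ _, ?_, ?_⟩
    · refine ⟨?_, ?_⟩
      · have := hDG.full
        simpa using this
      · intro L _ hL hR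
        have h1 : L.map H.subtype ≤ H := by
          rintro _ ⟨x, -, rfl⟩
          exact x.2
        have h2 : (⊤ : Subgroup H).map H.subtype = H := by
          ext x
          constructor
          · rintro ⟨y, -, rfl⟩
            exact y.2
          · intro hx
            exact ⟨⟨x, hx⟩, Subgroup.mem_top _, rfl⟩
        have h3 := hc.conn.2 _ h1 ((D_map H L).1 hL) (by
          rw [R_map H L, R_map H ⊤, h2] at hR
          exact hR)
        refine top_le_iff.1 fun x _ => ?_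
        have h4 : x.1 ∈ L.map H.subtype := by rw [h3]; exact x.2
        obtain ⟨y, hy, hyx⟩ := h4
        have : y = x := Subtype.ext hyx
        exact this ▸ hy
    · ext y
      constructor
      · intro _
        obtain ⟨h, hh, hy⟩ := hXH y.1 y.2
        exact ⟨⟨h, hh⟩, Subgroup.mem_top _, Subtype.ext hy⟩
      · intro _
        exact mem_univ _
    · ext x
      rw [Subgroup.mem_subgroupOf, hc.comp]
      unfold cc
      rw [Subgroup.mem_sInf, Subgroup.mem_sInf]
      constructor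
      · rintro h L ⟨hL1, hL2, hL3⟩
        have h1 := h (L.map H.subtype) ⟨(hFxmap L).1 hL1, (D_map H L).1 hL2, by
          rw [← hFxeq, Subgroup.relIndex_map_map_of_injective _ _ H.subtype_injective]
          exact hL3⟩
        obtain ⟨y, hy, hyx⟩ := h1
        have : y = x := Subtype.ext hyx
        exact this ▸ hy
      · rintro h L ⟨hL1, hL2, hL3⟩
        have hLH : L ≤ H := hL1.trans inf_le_left
        have h1 := h (L.subgroupOf H) ⟨by rw [hFxmap, map_of_le _ _ hLH]; exact hL1, by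
          rw [D_map, map_of_le _ _ hLH]; exact hL2, by
          rw [← Subgroup.relIndex_map_map_of_injective _ _ H.subtype_injective, hFxeq,
            map_of_le _ _ hLH]
          exact hL3⟩
        exact h1
    · obtain ⟨Y, hY1, hY2, hY3, hY4, hY5⟩ := hc.gen
      have hYv : Subtype.val '' (Subtype.val ⁻¹' Y : Set {y : S // y ∈ X}) = Y := by
        ext y
        constructor
        · rintro ⟨z, hz, rfl⟩
          exact hz
        · intro hy
          exact ⟨⟨y, hY3 hy⟩, hy, rfl⟩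
      refine ⟨Subtype.val ⁻¹' Y, ?_, ?_, fun _ _ => mem_univ _, ?_, ?_⟩
      · rw [Pool.Agent.H77.KG.D_sub, hYv]
        exact hY1
      · obtain ⟨y, hy⟩ := hY2
        exact ⟨⟨y, hY3 hy⟩, hy⟩
      · intro y hy
        obtain ⟨t, ht, hty⟩ := hY4 hy
        exact ⟨⟨t, hTH ht⟩, ht, Subtype.ext hty⟩
      · rw [Pool.Agent.H77.KG.R_sub_univ, Pool.Agent.H77.KG.R_sub, hYv]
        exact hY5
    · rw [Pool.Agent.H77.KG.R_sub_univ]
      exact hc.pos
  · -- the lines
    rintro ⟨E', ⟨L⟩⟩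
    obtain ⟨K, fld, f', line, -⟩ := L
    let f : S → K := fun y => if h : y ∈ X then f' ⟨y, h⟩ else 0
    have hf : ∀ y (h : y ∈ X), f y = f' ⟨y, h⟩ := fun y h => dif_pos h
    have hg2 : DFn U (fun p : {y : S // y ∈ X} × {y : S // y ∈ X} => ((p.1.1, p.2.1) : S × S)) :=
      DFn_pair (DFn_comp (g := fun y : {y : S // y ∈ X} => y.1) hvX DFn_fst)
        (DFn_comp (g := fun y : {y : S // y ∈ X} => y.1) hvX DFn_snd)
    have hg3 : DFn U (fun p : {y : S // y ∈ X} × {y : S // y ∈ X} × {y : S // y ∈ X} =>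
        ((p.1.1, p.2.1.1, p.2.2.1) : S × S × S)) :=
      DFn_pair (DFn_comp (g := fun y : {y : S // y ∈ X} => y.1) hvX DFn_fst)
        (DFn_comp (g := fun p : {y : S // y ∈ X} × {y : S // y ∈ X} => ((p.1.1, p.2.1) : S × S))
          hg2 DFn_snd)
    refine ⟨Rel X f, ⟨⟨K, fld, f, ?_, rfl⟩⟩⟩
    refine ⟨line.inf, ?_, ?_, ?_, ?_, ?_, ?_, ?_, ?_⟩
    · have h1 := DFn_image hg2 line.rel
      have h2 : (fun p : {y : S // y ∈ X} × {y : S // y ∈ X} => ((p.1.1, p.2.1) : S × S)) ''
          Rel univ f' = Rel X f := by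
        ext p
        constructor
        · rintro ⟨q, hq, rfl⟩
          refine ⟨q.1.2, q.2.2, ?_⟩
          have := hq.2.2
          simp only [hf _ q.1.2, hf _ q.2.2]
          exact this
        · rintro ⟨h1, h2, h3⟩
          refine ⟨(⟨p.1, h1⟩, ⟨p.2, h2⟩), ⟨mem_univ _, mem_univ _, ?_⟩, rfl⟩
          rw [hf _ h1, hf _ h2] at h3
          exact h3
      rw [h2] at h1
      exact h1
    · have h1 := DFn_image hg3 line.add
      have h2 : (fun p : {y : S // y ∈ X} × {y : S // y ∈ X} × {y : S // y ∈ X} =>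
          ((p.1.1, p.2.1.1, p.2.2.1) : S × S × S)) ''
          {p | p.1 ∈ univ ∧ p.2.1 ∈ univ ∧ p.2.2 ∈ univ ∧ f' p.1 + f' p.2.1 = f' p.2.2} =
          {p | p.1 ∈ X ∧ p.2.1 ∈ X ∧ p.2.2 ∈ X ∧ f p.1 + f p.2.1 = f p.2.2} := by
        ext p
        constructor
        · rintro ⟨q, hq, rfl⟩
          refine ⟨q.1.2, q.2.1.2, q.2.2.2, ?_⟩
          have := hq.2.2.2
          simp only [hf _ q.1.2, hf _ q.2.1.2, hf _ q.2.2.2]
          exact this
        · rintro ⟨h1, h2, h3, h4⟩
          refine ⟨(⟨p.1, h1⟩, ⟨p.2.1, h2⟩, ⟨p.2.2, h3⟩),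
            ⟨mem_univ _, mem_univ _, mem_univ _, ?_⟩, rfl⟩
          rw [hf _ h1, hf _ h2, hf _ h3] at h4
          exact h4
      rw [h2] at h1
      exact h1
    · have h1 := DFn_image hg3 line.mul
      have h2 : (fun p : {y : S // y ∈ X} × {y : S // y ∈ X} × {y : S // y ∈ X} =>
          ((p.1.1, p.2.1.1, p.2.2.1) : S × S × S)) ''
          {p | p.1 ∈ univ ∧ p.2.1 ∈ univ ∧ p.2.2 ∈ univ ∧ f' p.1 * f' p.2.1 = f' p.2.2} =
          {p | p.1 ∈ X ∧ p.2.1 ∈ X ∧ p.2.2 ∈ X ∧ f p.1 * f p.2.1 = f p.2.2} := by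
        ext p
        constructor
        · rintro ⟨q, hq, rfl⟩
          refine ⟨q.1.2, q.2.1.2, q.2.2.2, ?_⟩
          have := hq.2.2.2
          simp only [hf _ q.1.2, hf _ q.2.1.2, hf _ q.2.2.2]
          exact this
        · rintro ⟨h1, h2, h3, h4⟩
          refine ⟨(⟨p.1, h1⟩, ⟨p.2.1, h2⟩, ⟨p.2.2, h3⟩),
            ⟨mem_univ _, mem_univ _, mem_univ _, ?_⟩, rfl⟩
          rw [hf _ h1, hf _ h2, hf _ h3] at h4
          exact h4
      rw [h2] at h1
      exact h1
    · intro k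
      obtain ⟨y, -, hy⟩ := line.onto k
      exact ⟨y.1, y.2, by rw [hf _ y.2]; exact hy⟩
    · rw [hf _ ho]
      exact line.f0
    · rw [hf _ hc.mem]
      exact line.f1
    · intro h hh
      obtain ⟨a, b, ha, hab⟩ := line.act ⟨h, hh⟩ (Subgroup.mem_top _)
      refine ⟨a, b, ha, fun y hy => ?_⟩
      rw [hf _ hy, hf _ (hHX h hh y hy)]
      exact hab ⟨y, hy⟩ (mem_univ _)
    · intro a b ha
      obtain ⟨h, -, hab⟩ := line.full a b ha
      refine ⟨h.1, h.2, fun y hy => ?_⟩
      rw [hf _ hy, hf _ (hHX h.1 h.2 y hy)]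
      exact hab ⟨y, hy⟩ (mem_univ _)

end Pool.Agent.H94.S
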